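import Pool.Agent.W548.CZ.Defs

set_option autoImplicit false

namespace Pool.Agent.W548.CZ

open Finset
open scoped Classical

variable {G : Type*} [Group G] [Fintype G] [DecidableEq G]

/-- sign function of a CM type -/
noncomputable def eps (S : Finset G) (g : G) : ℚ := if g ∈ S then 1 else -1

lemma eps_sq (S : Finset G) (g : G) : eps S g * eps S g = 1 := by
  unfold eps; split_ifs <;> norm_num

lemma eps_c {c : G} {H : Subgroup G} {S : Finset G} (h : IsCMType c H S) (g : G) :
    eps S (c * g) = - eps S g := by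
  unfold eps
  by_cases hg : g ∈ S
  · have : c * g ∉ S := fun h' => ((h.2 g).1 h') hg
    simp [hg, this]
  · have : c * g ∈ S := (h.2 g).2 hg
    simp [hg, this]

lemma IsCMType.right {c : G} {H : Subgroup G} {S : Finset G} (h : IsCMType c H S) (g u : G)
    (hu : u ∈ H) : g * u ∈ S ↔ g ∈ S := by
  constructor
  · intro h'
    have := h.1 _ h' _ (H.inv_mem hu)
    simpa using this
  · intro h'
    exact h.1 _ h' _ hu

lemma eps_right {c : G} {H : Subgroup G} {S : Finset G} (h : IsCMType c H S) (g u : G)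
    (hu : u ∈ H) : eps S (g * u) = eps S g := by
  unfold eps
  simp only [h.right g u hu]

lemma a0_eq (x : G) (S : Finset G) (g : G) :
    a0 x S g = (∑ η : G, (1 + eps S (η⁻¹ * g * η * x)) / 2) / Fintype.card G := by
  unfold a0
  congr 1
  rw [Finset.card_filter]
  push_cast
  apply Finset.sum_congr rfl
  intro η _
  unfold eps
  split_ifs <;> norm_num

lemma cardG_ne : (Fintype.card G : ℚ) ≠ 0 := by
  exact_mod_cast Fintype.card_ne_zero

/-- class average -/
noncomputable def Cl (f : G → ℚ) (g : G) : ℚ := (∑ x : G, f (x⁻¹ * g * x)) / Fintype.card G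

/-- odd part -/
noncomputable def Od (c : G) (f : G → ℚ) (g : G) : ℚ := (f g - f (c * g)) / 2

lemma a0_Cl (x : G) (S : Finset G) : Cl (a0 x S) = a0 x S := by
  funext g
  unfold Cl
  have h : ∀ z : G, a0 x S (z⁻¹ * g * z) = a0 x S g := by
    intro z
    rw [a0_eq, a0_eq]
    congr 1
    apply Fintype.sum_equiv (Equiv.mulLeft z)
    intro η
    simp only [Equiv.coe_mulLeft]
    congr 3
    group
  rw [Finset.sum_congr rfl (fun z _ => h z)]
  simp only [Finset.sum_const, Finset.card_univ, nsmul_eq_mul]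
  field_simp [cardG_ne (G := G)]

lemma a0_c {c : G} (hc : ∀ g, c * g = g * c) {H : Subgroup G} {S : Finset G}
    (h : IsCMType c H S) (x g : G) : a0 x S (c * g) = 1 - a0 x S g := by
  rw [a0_eq, a0_eq]
  have : ∀ η : G, eps S (η⁻¹ * (c * g) * η * x) = - eps S (η⁻¹ * g * η * x) := by
    intro η
    rw [← eps_c h]
    congr 1
    calc η⁻¹ * (c * g) * η * x = (η⁻¹ * c) * g * η * x := by group
      _ = (c * η⁻¹) * g * η * x := by rw [hc]
      _ = _ := by group
  simp only [this]
  rw [eq_sub_iff_add_eq, ← add_div, ← Finset.sum_add_distrib]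
  have : ∀ η : G, (1 + -eps S (η⁻¹ * g * η * x)) / 2 + (1 + eps S (η⁻¹ * g * η * x)) / 2 = 1 := by
    intro η; ring
  rw [Finset.sum_congr rfl (fun z _ => this z)]
  simp only [Finset.sum_const, Finset.card_univ, nsmul_eq_mul, mul_one]
  exact div_self (cardG_ne (G := G))

/-- the `Finset` of CM types on `K^H` -/
noncomputable def cms (c : G) (H : Subgroup G) : Finset (Finset G) :=
  univ.filter (fun S : Finset G => IsCMType c H S)

lemma mem_cms {c : G} {H : Subgroup G} {S : Finset G} : S ∈ cms c H ↔ IsCMType c H S := by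
  simp [cms]

/-- flip a CM type on the pair of cosets `y H ∪ c y H` -/
noncomputable def flip (c : G) (H : Subgroup G) (y : G) (S : Finset G) : Finset G :=
  univ.filter (fun g => (g ∈ S ∧ ¬ (y⁻¹ * g ∈ H ∨ y⁻¹ * (c * g) ∈ H)) ∨
    (g ∉ S ∧ (y⁻¹ * g ∈ H ∨ y⁻¹ * (c * g) ∈ H)))

lemma mem_flip {c : G} {H : Subgroup G} {y : G} {S : Finset G} {g : G} :
    g ∈ flip c H y S ↔ ((g ∈ S ∧ ¬ (y⁻¹ * g ∈ H ∨ y⁻¹ * (c * g) ∈ H)) ∨
    (g ∉ S ∧ (y⁻¹ * g ∈ H ∨ y⁻¹ * (c * g) ∈ H))) := by
  simp [flip]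

lemma flip_flip {c : G} {H : Subgroup G} {y : G} {S : Finset G} :
    flip c H y (flip c H y S) = S := by
  ext g
  simp only [mem_flip]
  tauto

lemma flip_cm {c : G} (hc2 : c * c = 1) {H : Subgroup G} {y : G} {S : Finset G}
    (h : IsCMType c H S) : IsCMType c H (flip c H y S) := by
  constructor
  · intro g hg u hu
    have e1 : (y⁻¹ * (g * u) ∈ H) ↔ (y⁻¹ * g ∈ H) := by
      rw [← mul_assoc]; exact H.mul_mem_cancel_right hu
    have e2 : (y⁻¹ * (c * (g * u)) ∈ H) ↔ (y⁻¹ * (c * g) ∈ H) := by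
      rw [← mul_assoc c, ← mul_assoc]; exact H.mul_mem_cancel_right hu
    rw [mem_flip] at hg ⊢
    rw [e1, e2, h.right g u hu]
    exact hg
  · intro g
    have e3 : c * (c * g) = g := by rw [← mul_assoc, hc2, one_mul]
    rw [mem_flip, mem_flip, e3, h.2 g]
    tauto

lemma eps_flip_of {c : G} {H : Subgroup G} {y : G} {S : Finset G} {g : G}
    (hg : y⁻¹ * g ∈ H ∨ y⁻¹ * (c * g) ∈ H) : eps (flip c H y S) g = - eps S g := by
  unfold eps
  by_cases hS : g ∈ S
  · have : g ∉ flip c H y S := by rw [mem_flip]; tauto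
    simp [hS, this]
  · have : g ∈ flip c H y S := by rw [mem_flip]; tauto
    simp [hS, this]

lemma eps_flip_of_not {c : G} {H : Subgroup G} {y : G} {S : Finset G} {g : G}
    (hg : ¬ (y⁻¹ * g ∈ H ∨ y⁻¹ * (c * g) ∈ H)) : eps (flip c H y S) g = eps S g := by
  unfold eps
  by_cases hS : g ∈ S
  · have : g ∈ flip c H y S := by rw [mem_flip]; tauto
    simp [hS, this]
  · have : g ∉ flip c H y S := by rw [mem_flip]; tauto
    simp [hS, this]

lemma sum_flip {c : G} (hc2 : c * c = 1) {H : Subgroup G} (y : G) (F : Finset G → ℚ) :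
    ∑ S ∈ cms c H, F (flip c H y S) = ∑ S ∈ cms c H, F S := by
  apply Finset.sum_nbij' (flip c H y) (flip c H y)
  · intro S hS; exact mem_cms.2 (flip_cm hc2 (mem_cms.1 hS))
  · intro S hS; exact mem_cms.2 (flip_cm hc2 (mem_cms.1 hS))
  · intro S _; exact flip_flip
  · intro S _; exact flip_flip
  · intro S _; rfl

lemma sum_eps {c : G} (hc2 : c * c = 1) {H : Subgroup G} (y : G) :
    ∑ S ∈ cms c H, eps S y = 0 := by
  have h := sum_flip hc2 (H := H) y (fun S => eps S y)
  have h2 : ∀ S ∈ cms c H, eps (flip c H y S) y = - eps S y := by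
    intro S _
    apply eps_flip_of
    left; simp [H.one_mem]
  rw [Finset.sum_congr rfl h2, Finset.sum_neg_distrib] at h
  linarith

lemma sum_eps_eps {c : G} (hc : ∀ g, c * g = g * c) (hc2 : c * c = 1) {H : Subgroup G}
    (hcH : c ∉ H) (x y : G) :
    ∑ S ∈ cms c H, eps S x * eps S y =
      ((cms c H).card : ℚ) * ((if y⁻¹ * x ∈ H then 1 else 0) -
        (if y⁻¹ * (c * x) ∈ H then 1 else 0)) := by
  by_cases h1 : y⁻¹ * x ∈ H
  · have h2 : ¬ (y⁻¹ * (c * x) ∈ H) := by
      intro h2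
      apply hcH
      have : c = (y⁻¹ * (c * x)) * (y⁻¹ * x)⁻¹ := by
        calc c = c * (y⁻¹ * x) * (y⁻¹ * x)⁻¹ := by group
          _ = (c * y⁻¹) * x * (y⁻¹ * x)⁻¹ := by group
          _ = (y⁻¹ * c) * x * (y⁻¹ * x)⁻¹ := by rw [hc]
          _ = _ := by group
      rw [this]
      exact H.mul_mem h2 (H.inv_mem h1)
    have h3 : ∀ S ∈ cms c H, eps S x * eps S y = 1 := by
      intro S hS
      have : x = y * (y⁻¹ * x) := by group
      rw [this, eps_right (mem_cms.1 hS) _ _ h1, eps_sq]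
    rw [Finset.sum_congr rfl h3]
    simp [h1, h2]
  · by_cases h2 : y⁻¹ * (c * x) ∈ H
    · have h3 : ∀ S ∈ cms c H, eps S x * eps S y = -1 := by
        intro S hS
        have e : eps S (c * x) = eps S y := by
          have : c * x = y * (y⁻¹ * (c * x)) := by group
          rw [this, eps_right (mem_cms.1 hS) _ _ h2]
        rw [eps_c (mem_cms.1 hS)] at e
        rw [← e]
        have := eps_sq S x
        linarith
      rw [Finset.sum_congr rfl h3]
      simp [h1, h2]
    · have h := sum_flip hc2 (H := H) y (fun S => eps S x * eps S y)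
      have h4 : ∀ S ∈ cms c H, eps (flip c H y S) x * eps (flip c H y S) y
          = - (eps S x * eps S y) := by
        intro S _
        rw [eps_flip_of_not (g := x), eps_flip_of (g := y)]
        · ring
        · left; simp [H.one_mem]
        · push Not; exact ⟨h1, h2⟩
      rw [Finset.sum_congr rfl h4, Finset.sum_neg_distrib] at h
      simp only [h1, h2, if_false, sub_zero, mul_zero]
      linarith

/-- `p_H(g) = #{x : x⁻¹ g x ∈ H}` -/
noncomputable def pH (H : Subgroup G) (g : G) : ℚ := ∑ x : G, if x⁻¹ * g * x ∈ H then 1 else 0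

lemma sum_mem_eq (S : Finset G) (F : G → ℚ) :
    ∑ x ∈ S, F x = ∑ x : G, (1 + eps S x) / 2 * F x := by
  rw [← Finset.sum_filter_add_sum_filter_not univ (fun x => x ∈ S)
    (fun x => (1 + eps S x) / 2 * F x)]
  have e1 : (univ.filter (fun x => x ∈ S)) = S := by ext; simp
  rw [e1]
  have e2 : ∑ x ∈ univ.filter (fun x => x ∉ S), (1 + eps S x) / 2 * F x = 0 := by
    apply Finset.sum_eq_zero
    intro x hx
    simp only [Finset.mem_filter, Finset.mem_univ, true_and] at hx
    simp [eps, hx]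
  rw [e2, add_zero]
  apply Finset.sum_congr rfl
  intro x hx
  simp [eps, hx]

/-- The averaged class function. -/
lemma averaged_eq {c : G} (hc : ∀ g, c * g = g * c) (hc2 : c * c = 1) {H : Subgroup G}
    (hcH : c ∉ H) (g : G) :
    ∑ S ∈ cms c H, ∑ x ∈ S, a0 x S g =
      ((cms c H).card : ℚ) / 4 * (Fintype.card G + pH H g - pH H (c * g)) := by
  have h1 : ∀ S ∈ cms c H, ∑ x ∈ S, a0 x S g =
      (∑ x : G, ∑ η : G, (1 + eps S x) * (1 + eps S (η⁻¹ * g * η * x)) / 4) / Fintype.card G := by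
    intro S _
    rw [sum_mem_eq, Finset.sum_div]
    apply Finset.sum_congr rfl
    intro x _
    rw [a0_eq, ← mul_div_assoc, Finset.mul_sum]
    congr 1
    apply Finset.sum_congr rfl
    intro η _
    ring
  rw [Finset.sum_congr rfl h1, ← Finset.sum_div]
  have h2 : ∑ S ∈ cms c H, ∑ x : G, ∑ η : G, (1 + eps S x) * (1 + eps S (η⁻¹ * g * η * x)) / 4
      = ∑ η : G, ∑ x : G, ∑ S ∈ cms c H,
        (1 + eps S x) * (1 + eps S (η⁻¹ * g * η * x)) / 4 := by
    rw [Finset.sum_comm]
    rw [Finset.sum_congr rfl (fun x _ => Finset.sum_comm)]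
    rw [Finset.sum_comm]
  rw [h2]
  have h3 : ∀ η x : G, ∑ S ∈ cms c H, (1 + eps S x) * (1 + eps S (η⁻¹ * g * η * x)) / 4 =
      ((cms c H).card : ℚ) / 4 * (1 + (if (η * x)⁻¹ * g * (η * x) ∈ H then 1 else 0) -
        (if (η * x)⁻¹ * (c * g) * (η * x) ∈ H then 1 else 0)) := by
    intro η x
    have e : ∀ S ∈ cms c H, (1 + eps S x) * (1 + eps S (η⁻¹ * g * η * x)) / 4 =
        1 / 4 + eps S x / 4 + eps S (η⁻¹ * g * η * x) / 4 +
          (eps S (η⁻¹ * g * η * x) * eps S x) / 4 := by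
      intro S _; ring
    rw [Finset.sum_congr rfl e, Finset.sum_add_distrib, Finset.sum_add_distrib,
      Finset.sum_add_distrib, ← Finset.sum_div, ← Finset.sum_div, ← Finset.sum_div,
      ← Finset.sum_div, sum_eps hc2, sum_eps hc2, sum_eps_eps hc hc2 hcH]
    have e1 : x⁻¹ * (η⁻¹ * g * η * x) = (η * x)⁻¹ * g * (η * x) := by group
    have e2 : x⁻¹ * (c * (η⁻¹ * g * η * x)) = (η * x)⁻¹ * (c * g) * (η * x) := by
      calc x⁻¹ * (c * (η⁻¹ * g * η * x)) = x⁻¹ * (c * η⁻¹) * g * η * x := by group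
        _ = x⁻¹ * (η⁻¹ * c) * g * η * x := by rw [hc]
        _ = _ := by group
    rw [e1, e2]
    simp only [Finset.sum_const, nsmul_eq_mul]
    ring
  simp only [h3]
  have h4 : ∀ η : G, ∑ x : G, ((cms c H).card : ℚ) / 4 *
      (1 + (if (η * x)⁻¹ * g * (η * x) ∈ H then 1 else 0) -
        (if (η * x)⁻¹ * (c * g) * (η * x) ∈ H then 1 else 0)) =
      ((cms c H).card : ℚ) / 4 * (Fintype.card G + pH H g - pH H (c * g)) := by
    intro η
    rw [← Finset.mul_sum]
    congr 1
    have h5 : ∑ x : G, (1 + (if (η * x)⁻¹ * g * (η * x) ∈ H then (1:ℚ) else 0) -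
        (if (η * x)⁻¹ * (c * g) * (η * x) ∈ H then 1 else 0)) =
        ∑ z : G, (1 + (if z⁻¹ * g * z ∈ H then (1:ℚ) else 0) -
        (if z⁻¹ * (c * g) * z ∈ H then 1 else 0)) :=
      Fintype.sum_equiv (Equiv.mulLeft η) _ _ (fun x => rfl)
    rw [h5, Finset.sum_sub_distrib, Finset.sum_add_distrib]
    simp [pH]
  rw [Finset.sum_congr rfl (fun η _ => h4 η)]
  simp only [Finset.sum_const, Finset.card_univ, nsmul_eq_mul]
  field_simp [cardG_ne (G := G)]

/-- existence of CM types -/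
lemma exists_cm {c : G} (hc : ∀ g, c * g = g * c) (hc2 : c * c = 1) {H : Subgroup G}
    (hcH : c ∉ H) : ∃ S : Finset G, IsCMType c H S := by
  let e : G ⧸ H → ℕ := fun q => (Fintype.equivFin (G ⧸ H) q : ℕ)
  have he : ∀ a b : G ⧸ H, e a = e b → a = b := by
    intro a b h
    exact (Fintype.equivFin (G ⧸ H)).injective (Fin.ext h)
  refine ⟨univ.filter (fun g => e (g : G ⧸ H) < e ((c * g : G) : G ⧸ H)), ?_, ?_⟩
  · intro g hg u hu
    simp only [Finset.mem_filter, Finset.mem_univ, true_and] at hg ⊢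
    have e1 : ((g * u : G) : G ⧸ H) = (g : G ⧸ H) := by
      rw [QuotientGroup.eq]; simpa using H.inv_mem hu
    have e2 : ((c * (g * u) : G) : G ⧸ H) = ((c * g : G) : G ⧸ H) := by
      rw [QuotientGroup.eq]
      have : (c * (g * u))⁻¹ * (c * g) = u⁻¹ := by group
      rw [this]; exact H.inv_mem hu
    rw [e1, e2]; exact hg
  · intro g
    simp only [Finset.mem_filter, Finset.mem_univ, true_and]
    have e3 : c * (c * g) = g := by rw [← mul_assoc, hc2, one_mul]
    rw [e3]
    have hne : e (g : G ⧸ H) ≠ e ((c * g : G) : G ⧸ H) := by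
      intro h
      have := he _ _ h
      rw [QuotientGroup.eq] at this
      apply hcH
      have e4 : g⁻¹ * (c * g) = c := by rw [hc]; group
      rwa [e4] at this
    omega

lemma cms_card_ne {c : G} (hc : ∀ g, c * g = g * c) (hc2 : c * c = 1) {H : Subgroup G}
    (hcH : c ∉ H) : ((cms c H).card : ℚ) ≠ 0 := by
  obtain ⟨S, hS⟩ := exists_cm hc hc2 hcH
  have : 0 < (cms c H).card := Finset.card_pos.2 ⟨S, mem_cms.2 hS⟩
  exact_mod_cast this.ne'

end Pool.Agent.W548.CZ
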