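import Mathlib

set_option autoImplicit false

/-!
# Colmez' class functions of CM types

`G` is the Galois group over `ℚ` of a Galois CM field `K`, `c ∈ G` is complex conjugation (a central
involution).  For a subgroup `H` with `c ∉ H` the fixed field `K^H` is a CM field, its embeddings
are the cosets `x H`, and a CM type is a right `H`-invariant subset `S` of `G` with
`G = S ⊔ c S`.
-/

namespace Pool.Agent.W548.CZ

open Finset

variable {G : Type*} [Group G] [Fintype G] [DecidableEq G]

/-- `S` is (the preimage in `G` of) a CM type on the CM field `K^H`. -/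
def IsCMType (c : G) (H : Subgroup G) (S : Finset G) : Prop :=
  (∀ g ∈ S, ∀ h ∈ H, g * h ∈ S) ∧ (∀ g, c * g ∈ S ↔ g ∉ S)

/-- Colmez' class function `a⁰_{E,ψ,Φ}`, where `ψ` is the embedding `x H` and `Φ` is the CM type
`S` : `a⁰(g) = #{η : η⁻¹ g η ψ ∈ Φ} / #G`. -/
def a0 (x : G) (S : Finset G) (g : G) : ℚ :=
  ((univ.filter fun η : G => η⁻¹ * g * η * x ∈ S).card : ℚ) / Fintype.card G

open scoped Classical in
/-- The properties of the functional `δ = ht - Z^∞(·^*, 0)` given by the published theorems:
`δ` kills constants (Legendre relation and `ζ'(0)/ζ(0) = log 2π`), `δ` kills the class functions of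
all CM types on subfields `K^H` that are abelian over `ℚ` (Colmez, Obus), and for every CM subfield
`K^H` the sum over all CM types `Φ` of `K^H` and all `ψ ∈ Φ` of `δ(a⁰_{E,ψ,Φ})` vanishes (averaged
Colmez formula: Andreatta-Goren-Howard-Madapusi Pera, Yuan-Zhang). -/
structure Known (c : G) (δ : (G → ℚ) →ₗ[ℚ] ℝ) : Prop where
  one : δ (fun _ => 1) = 0
  abelian : ∀ H : Subgroup G, c ∉ H → commutator G ≤ H → ∀ S : Finset G, IsCMType c H S →
    ∀ x : G, δ (a0 x S) = 0
  averaged : ∀ H : Subgroup G, c ∉ H →
    ∑ S ∈ univ.filter (fun S : Finset G => IsCMType c H S), ∑ x ∈ S, δ (a0 x S) = 0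

/-- The criterion: `f` is the sum of a function that only depends on the cyclic subgroup generated
by its argument and a function that only depends on the image in the abelianization. -/
def Crit (f : G → ℚ) : Prop :=
  ∃ f₁ f₂ : G → ℚ, (∀ g, f g = f₁ g + f₂ g) ∧
    (∀ g y : G, Subgroup.zpowers g = Subgroup.zpowers y → f₁ g = f₁ y) ∧
    (∀ g : G, ∀ u ∈ commutator G, f₂ (g * u) = f₂ g)

end Pool.Agent.W548.CZ
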