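import Pool.Agent.W548.CZ.Main

set_option autoImplicit false
set_option linter.unusedSectionVars false

namespace Pool.Agent.W548.CZ

open Finset
open scoped Classical commutatorElement

variable {G : Type*} [Group G] [Fintype G] [DecidableEq G]

/-- indicator of `H` minus indicator of `cH` -/
noncomputable def chi (c : G) (H : Subgroup G) (w : G) : ℚ :=
  (if w ∈ H then 1 else 0) - (if c * w ∈ H then 1 else 0)

/-- `o_t(g) = #{η : t η⁻¹ g η ∈ H} - #{η : t η⁻¹ g η ∈ cH}` -/
noncomputable def oo (c : G) (H : Subgroup G) (t g : G) : ℚ :=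
  ∑ η : G, chi c H (t * (η⁻¹ * g * η))

lemma crit_sum {ι : Type*} (s : Finset ι) (F : ι → G → ℚ) (h : ∀ i ∈ s, Crit (F i)) :
    Crit (∑ i ∈ s, F i) := (critSub G).sum_mem h

lemma chi_left {c : G} (hc : ∀ g, c * g = g * c) {H : Subgroup G} (h w : G) (hh : h ∈ H) :
    chi c H (h * w) = chi c H w := by
  unfold chi
  have e1 : h * w ∈ H ↔ w ∈ H := H.mul_mem_cancel_left hh
  have e2 : c * (h * w) ∈ H ↔ c * w ∈ H := by
    have : c * (h * w) = h * (c * w) := by rw [← mul_assoc, hc h, mul_assoc]
    rw [this]; exact H.mul_mem_cancel_left hh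
  simp only [e1, e2]

lemma chi_right {c : G} {H : Subgroup G} (h w : G) (hh : h ∈ H) :
    chi c H (w * h) = chi c H w := by
  unfold chi
  have e1 : w * h ∈ H ↔ w ∈ H := H.mul_mem_cancel_right hh
  have e2 : c * (w * h) ∈ H ↔ c * w ∈ H := by
    rw [← mul_assoc]; exact H.mul_mem_cancel_right hh
  simp only [e1, e2]

lemma chi_c {c : G} (hc2 : c * c = 1) {H : Subgroup G} (w : G) :
    chi c H (c * w) = - chi c H w := by
  unfold chi
  have : c * (c * w) = w := by rw [← mul_assoc, hc2, one_mul]
  rw [this]; ring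

lemma sum_ite_mul (H : Subgroup G) (F : G → ℚ) (w : G) (hF : ∀ z, z⁻¹ * w ∈ H → F z = F w) :
    ∑ z : G, F z * (if z⁻¹ * w ∈ H then 1 else 0) = Nat.card H * F w := by
  have e : ∀ z : G, F z * (if z⁻¹ * w ∈ H then (1:ℚ) else 0) =
      F w * (if z⁻¹ * w ∈ H then (1:ℚ) else 0) := by
    intro z
    by_cases h : z⁻¹ * w ∈ H
    · rw [hF z h]
    · simp [h]
  rw [Finset.sum_congr rfl (fun z _ => e z), ← Finset.mul_sum, mul_comm]
  congr 1
  rw [Fintype.sum_equiv ((Equiv.inv G).trans (Equiv.mulRight w)) _
    (fun z => if z ∈ H then (1:ℚ) else 0) (fun y => by simp)]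
  rw [Finset.sum_boole]
  rw [Nat.card_eq_fintype_card, Fintype.card_subtype]

lemma eps_expand {c : G} (hc : ∀ g, c * g = g * c) {H : Subgroup G}
    {S : Finset G} (hS : IsCMType c H S) (w : G) :
    ∑ z : G, eps S z * chi c H (z⁻¹ * w) = 2 * Nat.card H * eps S w := by
  unfold chi
  simp only [mul_sub]
  rw [Finset.sum_sub_distrib]
  have e1 : ∑ z : G, eps S z * (if z⁻¹ * w ∈ H then (1:ℚ) else 0) = Nat.card H * eps S w := by
    apply sum_ite_mul
    intro z hz
    have : w = z * (z⁻¹ * w) := by group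
    rw [this, eps_right hS _ _ hz]
  have e2 : ∑ z : G, eps S z * (if c * (z⁻¹ * w) ∈ H then (1:ℚ) else 0) =
      Nat.card H * eps S (c * w) := by
    have e3 : ∀ z : G, c * (z⁻¹ * w) = z⁻¹ * (c * w) := by
      intro z; rw [← mul_assoc, hc, mul_assoc]
    simp only [e3]
    apply sum_ite_mul
    intro z hz
    have : c * w = z * (z⁻¹ * (c * w)) := by group
    rw [this, eps_right hS _ _ hz]
  rw [e1, e2, eps_c hS]
  ring

lemma card_H_ne (H : Subgroup G) : (Nat.card H : ℚ) ≠ 0 := by
  have : 0 < Nat.card H := Nat.card_pos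
  exact_mod_cast this.ne'

lemma a0_expand {c : G} (hc : ∀ g, c * g = g * c) {H : Subgroup G}
    {S : Finset G} (hS : IsCMType c H S) (x g : G) :
    a0 x S g = 1 / 2 + ∑ z : G, (eps S z / (4 * Fintype.card G * Nat.card H)) *
      oo c H (z⁻¹ * x) g := by
  have hH := card_H_ne H
  have hG := cardG_ne (G := G)
  have e1 : ∀ z : G, oo c H (z⁻¹ * x) g = ∑ η : G, chi c H (z⁻¹ * (η⁻¹ * g * η * x)) := by
    intro z
    unfold oo
    symm
    apply Fintype.sum_equiv (Equiv.mulRight x)
    intro η
    simp only [Equiv.coe_mulRight]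
    congr 1
    group
  have e2 : ∑ z : G, (eps S z / (4 * Fintype.card G * Nat.card H)) * oo c H (z⁻¹ * x) g =
      (∑ η : G, ∑ z : G, eps S z * chi c H (z⁻¹ * (η⁻¹ * g * η * x))) /
        (4 * Fintype.card G * Nat.card H) := by
    rw [Finset.sum_comm, Finset.sum_div]
    apply Finset.sum_congr rfl
    intro z _
    rw [e1, Finset.mul_sum, Finset.sum_div]
    apply Finset.sum_congr rfl
    intro η _
    ring
  rw [e2, Finset.sum_congr rfl (fun η _ => eps_expand hc hS _), a0_eq, ← Finset.mul_sum]
  have e3 : ∑ η : G, (1 + eps S (η⁻¹ * g * η * x)) / 2 =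
      (Fintype.card G + ∑ η : G, eps S (η⁻¹ * g * η * x)) / 2 := by
    rw [← Finset.sum_div, Finset.sum_add_distrib]; simp
  rw [e3]
  field_simp
  ring

lemma crit_a0_of_oo {c : G} (hc : ∀ g, c * g = g * c) {H : Subgroup G}
    (h : ∀ t, Crit (oo c H t)) {S : Finset G} (hS : IsCMType c H S) (x : G) :
    Crit (a0 x S) := by
  have e : a0 x S = (fun _ => 1 / 2) + ∑ z : G, (eps S z / (4 * Fintype.card G * Nat.card H)) •
      oo c H (z⁻¹ * x) := by
    funext g
    rw [a0_expand hc hS]
    simp only [Pi.add_apply, Finset.sum_apply, Pi.smul_apply, smul_eq_mul]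
  rw [e]
  apply crit_add (crit_const _)
  apply crit_sum
  intro z _
  exact crit_smul _ (h _)

/-- the function `oo t` is a combination of Colmez functions of two CM types -/
lemma oo_eq_sub {c : G} {H : Subgroup G}
    (hcH : c ∉ H) {S : Finset G} (hS : IsCMType c H S) (t : G) :
    oo c H t = ((Fintype.card G : ℚ) * eps S 1) • (a0 t S - a0 t (flip c H 1 S)) := by
  funext g
  have hG := cardG_ne (G := G)
  simp only [Pi.smul_apply, Pi.sub_apply, smul_eq_mul]
  rw [a0_eq, a0_eq, ← sub_div, ← Finset.sum_sub_distrib]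
  have e1 : oo c H t g = ∑ η : G, chi c H (η⁻¹ * g * η * t) := by
    unfold oo
    symm
    apply Fintype.sum_equiv (Equiv.mulRight t)
    intro η
    simp only [Equiv.coe_mulRight]
    congr 1
    group
  have e2 : ∀ w : G, (1 + eps S w) / 2 - (1 + eps (flip c H 1 S) w) / 2 =
      eps S 1 * chi c H w := by
    intro w
    by_cases h1 : w ∈ H
    · have h2 : ¬ (c * w ∈ H) := by
        intro h2
        apply hcH
        have := H.mul_mem h2 (H.inv_mem h1)
        rwa [mul_inv_cancel_right] at this
      rw [eps_flip_of (by left; simpa using h1)]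
      have e3 : eps S w = eps S 1 := by
        have := eps_right hS 1 w h1
        rwa [one_mul] at this
      rw [e3]
      unfold chi
      rw [if_pos h1, if_neg h2]; ring
    · by_cases h2 : c * w ∈ H
      · rw [eps_flip_of (by right; simpa using h2)]
        have e3 : - eps S w = eps S 1 := by
          rw [← eps_c hS]
          have := eps_right hS 1 (c * w) h2
          rwa [one_mul] at this
        unfold chi
        rw [if_neg h1, if_pos h2, ← e3]; ring
      · rw [eps_flip_of_not (by simpa using And.intro h1 h2)]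
        unfold chi
        rw [if_neg h1, if_neg h2]; ring
  rw [e1, Finset.sum_congr rfl (fun η _ => e2 _), ← Finset.mul_sum]
  field_simp
  have := eps_sq S 1
  linear_combination (-(∑ η : G, chi c H (η⁻¹ * g * η * t))) * this

lemma oo_mem {c : G} (hc : ∀ g, c * g = g * c) {H : Subgroup G} {h : G} (hh : h ∈ H) (t : G) :
    oo c H (h * t) = oo c H t := by
  funext g
  unfold oo
  apply Finset.sum_congr rfl
  intro η _
  rw [mul_assoc, chi_left hc _ _ hh]

lemma oo_mem_right {c : G} {H : Subgroup G} {h : G} (hh : h ∈ H) (t : G) :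
    oo c H (t * h) = oo c H t := by
  funext g
  unfold oo
  apply Fintype.sum_equiv (Equiv.mulRight h⁻¹)
  intro η
  simp only [Equiv.coe_mulRight]
  have : t * h * (η⁻¹ * g * η) = (t * ((η * h⁻¹)⁻¹ * g * (η * h⁻¹))) * h := by group
  rw [this, chi_right _ _ hh]

lemma oo_c {c : G} (hc2 : c * c = 1) {H : Subgroup G} (t : G) :
    oo c H (c * t) = - oo c H t := by
  funext g
  rw [Pi.neg_apply]
  unfold oo
  rw [← Finset.sum_neg_distrib]
  apply Finset.sum_congr rfl
  intro η _
  rw [mul_assoc, chi_c hc2]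

lemma oo_one {c : G} (hc : ∀ g, c * g = g * c) {H : Subgroup G} (g : G) :
    oo c H 1 g = pH H g - pH H (c * g) := by
  unfold oo chi pH
  rw [Finset.sum_sub_distrib]
  congr 1
  · apply Finset.sum_congr rfl
    intro η _
    rw [one_mul]
  · apply Finset.sum_congr rfl
    intro η _
    have : c * (1 * (η⁻¹ * g * η)) = η⁻¹ * (c * g) * η := by
      calc c * (1 * (η⁻¹ * g * η)) = (c * η⁻¹) * g * η := by group
        _ = (η⁻¹ * c) * g * η := by rw [hc]
        _ = _ := by group
    rw [this]

lemma pH_pow {H : Subgroup G} {g y : G} (h : Subgroup.zpowers g = Subgroup.zpowers y) :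
    pH H g = pH H y := by
  unfold pH
  apply Finset.sum_congr rfl
  intro x _
  have h1 : ∃ k : ℤ, g ^ k = y := by
    obtain ⟨k, _, hk⟩ := exists_odd h; exact ⟨k, hk⟩
  have h2 : ∃ k : ℤ, y ^ k = g := by
    obtain ⟨k, _, hk⟩ := exists_odd h.symm; exact ⟨k, hk⟩
  simp only [conj_mem_iff h1 h2 x]

lemma pH_pow_c {c : G} (hc : ∀ g, c * g = g * c) (hc2 : c * c = 1) {H : Subgroup G} {g y : G}
    (h : Subgroup.zpowers g = Subgroup.zpowers y) : pH H (c * g) = pH H (c * y) := by
  unfold pH
  apply Finset.sum_congr rfl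
  intro x _
  simp only [conj_mem_iff (c_mul_zpow hc hc2 h) (c_mul_zpow hc hc2 h.symm) x]

lemma crit_oo_one {c : G} (hc : ∀ g, c * g = g * c) (hc2 : c * c = 1) {H : Subgroup G} :
    Crit (oo c H 1) := by
  refine ⟨oo c H 1, fun _ => 0, fun _ => by simp, ?_, fun _ _ _ => rfl⟩
  intro g y h
  rw [oo_one hc, oo_one hc, pH_pow h, pH_pow_c hc hc2 h]

/-- `H` and `cH` elements -/
lemma crit_oo_of_mem {c : G} (hc : ∀ g, c * g = g * c) (hc2 : c * c = 1) {H : Subgroup G}
    {t : G} (ht : t ∈ H ∨ c * t ∈ H) : Crit (oo c H t) := by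
  rcases ht with ht | ht
  · have := oo_mem hc ht (1 : G)
    rw [mul_one] at this
    rw [this]; exact crit_oo_one hc hc2
  · have h1 := oo_mem hc ht (1 : G)
    rw [mul_one, oo_c hc2] at h1
    have : oo c H t = (-1 : ℚ) • oo c H 1 := by
      rw [← h1]; simp
    rw [this]
    exact crit_smul _ (crit_oo_one hc hc2)

/-- Mackey condition -/
def Mackey (c : G) (H : Subgroup G) : Prop :=
  ∀ t : G, t ∉ H → c * t ∉ H → ∃ h ∈ H, c * (t * h * t⁻¹) ∈ H

lemma crit_oo_mackey {c : G} (hc : ∀ g, c * g = g * c) (hc2 : c * c = 1) {H : Subgroup G}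
    (hM : Mackey c H) (t : G) : Crit (oo c H t) := by
  by_cases h1 : t ∈ H
  · exact crit_oo_of_mem hc hc2 (Or.inl h1)
  by_cases h2 : c * t ∈ H
  · exact crit_oo_of_mem hc hc2 (Or.inr h2)
  obtain ⟨h, hh, hh'⟩ := hM t h1 h2
  have e1 : oo c H (t * h) = oo c H t := oo_mem_right hh t
  have e2 : oo c H (t * h) = - oo c H t := by
    have : t * h = c * ((c * (t * h * t⁻¹)) * t) := by
      have h3 : c * (c * (t * h * t⁻¹) * t) = (c * c) * (t * h) := by group
      rw [h3, hc2, one_mul]
    rw [this, oo_c hc2, oo_mem hc hh']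
  have e3 : oo c H t = 0 := by
    rw [e1] at e2
    funext g
    have := congrFun e2 g
    rw [Pi.neg_apply] at this
    simp only [Pi.zero_apply]
    linarith
  rw [e3]
  exact crit_const 0

/-- The maximal totally real subfield has no proper subfield, and the Galois closure of the CM
field is bigger than quadratic over the Galois closure of the maximal totally real subfield. -/
lemma mackey_of_primitive {c : G} (hc : ∀ g, c * g = g * c) (hc2 : c * c = 1) {H : Subgroup G}
    (hmax : ∀ M : Subgroup G, H ≤ M → c ∈ M → (M = ⊤ ∨ ∀ m ∈ M, m ∈ H ∨ c * m ∈ H))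
    (hcore : ∀ N : Subgroup G, N.Normal → N ≤ H → N = ⊥)
    (hbig : ∃ N : Subgroup G, N.Normal ∧ c ∈ N ∧ (∀ n ∈ N, n ∈ H ∨ c * n ∈ H) ∧
      ∃ n ∈ N, n ≠ 1 ∧ n ≠ c) : Mackey c H := by
  obtain ⟨N, hN, hcN, hNM, n₀, hn₀, hne1, hnec⟩ := hbig
  intro t ht1 ht2
  by_contra hcon
  push Not at hcon
  set N1 : Subgroup G := N ⊓ H with hN1
  -- conjugation by `t` preserves `N1`
  have hA : ∀ n ∈ N1, t * n * t⁻¹ ∈ N1 := by
    intro n hn
    have h1 : t * n * t⁻¹ ∈ N := hN.conj_mem n hn.1 t
    refine ⟨h1, ?_⟩
    rcases hNM _ h1 with h2 | h2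
    · exact h2
    · exact absurd h2 (hcon n hn.2)
  have hB : ∀ n ∈ N1, t⁻¹ * n * t ∈ N1 := by
    intro n hn
    have h1 : t⁻¹ * n * t ∈ N := by
      have := hN.conj_mem n hn.1 t⁻¹
      rwa [inv_inv] at this
    refine ⟨h1, ?_⟩
    rcases hNM _ h1 with h2 | h2
    · exact h2
    · exfalso
      apply hcon _ h2
      have e : c * (t * (c * (t⁻¹ * n * t)) * t⁻¹) = n := by
        calc c * (t * (c * (t⁻¹ * n * t)) * t⁻¹) = c * ((t * c) * (t⁻¹ * n * t) * t⁻¹) := by group
          _ = c * ((c * t) * (t⁻¹ * n * t) * t⁻¹) := by rw [hc t]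
          _ = (c * c) * n := by group
          _ = n := by rw [hc2, one_mul]
      rw [e]; exact hn.2
  let M : Subgroup G :=
    { carrier := {g | (∀ n ∈ N1, g * n * g⁻¹ ∈ N1) ∧ (∀ n ∈ N1, g⁻¹ * n * g ∈ N1)}
      mul_mem' := by
        rintro a b ⟨ha1, ha2⟩ ⟨hb1, hb2⟩
        constructor
        · intro n hn
          have := ha1 _ (hb1 n hn)
          have e : a * b * n * (a * b)⁻¹ = a * (b * n * b⁻¹) * a⁻¹ := by group
          rw [e]; exact this
        · intro n hn
          have := hb2 _ (ha2 n hn)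
          have e : (a * b)⁻¹ * n * (a * b) = b⁻¹ * (a⁻¹ * n * a) * b := by group
          rw [e]; exact this
      one_mem' := by
        constructor
        · intro n hn; simpa using hn
        · intro n hn; simpa using hn
      inv_mem' := by
        rintro a ⟨ha1, ha2⟩
        constructor
        · intro n hn; rw [inv_inv]; exact ha2 n hn
        · intro n hn; rw [inv_inv]; exact ha1 n hn }
  have hMH : H ≤ M := by
    intro h hh
    constructor
    · intro n hn
      exact ⟨hN.conj_mem n hn.1 h, H.mul_mem (H.mul_mem hh hn.2) (H.inv_mem hh)⟩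
    · intro n hn
      refine ⟨?_, H.mul_mem (H.mul_mem (H.inv_mem hh) hn.2) hh⟩
      have := hN.conj_mem n hn.1 h⁻¹
      rwa [inv_inv] at this
  have hMc : c ∈ M := by
    constructor
    · intro n hn
      have : c * n * c⁻¹ = n := by rw [hc]; group
      rw [this]; exact hn
    · intro n hn
      have : c⁻¹ * n * c = n := by rw [mul_assoc, ← hc]; group
      rw [this]; exact hn
  have hMt : t ∈ M := ⟨hA, hB⟩
  have hMtop : M = ⊤ := by
    rcases hmax M hMH hMc with h | h
    · exact h
    · rcases h t hMt with h | h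
      · exact absurd h ht1
      · exact absurd h ht2
  have hN1n : N1.Normal := by
    constructor
    intro n hn g
    have : g ∈ M := by rw [hMtop]; exact Subgroup.mem_top g
    exact this.1 n hn
  have hbot := hcore N1 hN1n inf_le_right
  rcases hNM n₀ hn₀ with h | h
  · have : n₀ ∈ N1 := ⟨hn₀, h⟩
    rw [hbot, Subgroup.mem_bot] at this
    exact hne1 this
  · have : c * n₀ ∈ N1 := ⟨N.mul_mem hcN hn₀, h⟩
    rw [hbot, Subgroup.mem_bot] at this
    apply hnec
    have h3 : c * (c * n₀) = c := by rw [this, mul_one]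
    rw [← mul_assoc, hc2, one_mul] at h3
    exact h3

/-- `E = F K₀` with `K₀` imaginary quadratic and a doubly transitive Galois group of `F`. -/
lemma crit_oo_two_transitive {c : G} (hc : ∀ g, c * g = g * c) (hc2 : c * c = 1)
    {H : Subgroup G} {G₀ : Subgroup G} (hcG : c ∉ G₀) (hG : ∀ g, g ∈ G₀ ∨ c * g ∈ G₀)
    (hH : H ≤ G₀)
    (htr : ∀ a ∈ G₀, ∀ b ∈ G₀, a ∉ H → b ∉ H → ∃ h ∈ H, ∃ h' ∈ H, b = h * a * h')
    (t : G) : Crit (oo c H t) := by
  -- reduce to `t ∈ G₀`
  have main : ∀ t ∈ G₀, t ∉ H → Crit (oo c H t) := by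
    intro a ha haH
    -- `o_b = o_a` for all `b ∈ G₀ \ H`
    have hab : ∀ b ∈ G₀, b ∉ H → oo c H b = oo c H a := by
      intro b hb hbH
      obtain ⟨h, hh, h', hh', e⟩ := htr a ha b hb haH hbH
      rw [e, oo_mem_right hh', oo_mem hc hh]
    -- sign character
    let sg : G → ℚ := fun g => if g ∈ G₀ then 1 else -1
    have hexcl : ∀ g, c * g ∈ G₀ → g ∉ G₀ := by
      intro g h1 h2
      apply hcG
      have := G₀.mul_mem h1 (G₀.inv_mem h2)
      rwa [mul_inv_cancel_right] at this
    have hconj : ∀ g η : G, g ∈ G₀ → η⁻¹ * g * η ∈ G₀ := by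
      intro g η hg
      rcases hG η with h | h
      · exact G₀.mul_mem (G₀.mul_mem (G₀.inv_mem h) hg) h
      · have e : η⁻¹ * g * η = (c * η)⁻¹ * g * (c * η) := by
          rw [mul_inv_rev]
          calc η⁻¹ * g * η = η⁻¹ * (c⁻¹ * c) * g * η := by group
            _ = η⁻¹ * c⁻¹ * (c * g) * η := by group
            _ = η⁻¹ * c⁻¹ * (g * c) * η := by rw [hc]
            _ = _ := by group
        rw [e]
        exact G₀.mul_mem (G₀.mul_mem (G₀.inv_mem h) hg) h
    have hconj' : ∀ g η : G, η⁻¹ * g * η ∈ G₀ ↔ g ∈ G₀ := by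
      intro g η
      constructor
      · intro h
        have := hconj _ η⁻¹ h
        have e : η⁻¹⁻¹ * (η⁻¹ * g * η) * η⁻¹ = g := by group
        rwa [e] at this
      · exact hconj g η
    have hcomm : commutator G ≤ G₀ := by
      rw [commutator_def, Subgroup.commutator_le]
      intro x _ y _
      rw [commutatorElement_def]
      have e : x * y * x⁻¹ * y⁻¹ = x * (y * x⁻¹ * y⁻¹) := by group
      rw [e]
      rcases hG x with h | h
      · apply G₀.mul_mem h
        have := hconj x⁻¹ y⁻¹ (G₀.inv_mem h)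
        rwa [inv_inv] at this
      · have e2 : x * (y * x⁻¹ * y⁻¹) = (c * x) * (y * (c * x)⁻¹ * y⁻¹) := by
          have e3 : (c * x)⁻¹ = x⁻¹ * c := by
            rw [mul_inv_rev]
            congr 1
            exact inv_eq_of_mul_eq_one_left hc2
          rw [e3]
          calc x * (y * x⁻¹ * y⁻¹) = (c * c) * x * (y * x⁻¹ * y⁻¹) := by rw [hc2, one_mul]
            _ = c * (c * (x * y * x⁻¹)) * y⁻¹ := by group
            _ = c * ((x * y * x⁻¹) * c) * y⁻¹ := by rw [hc (x * y * x⁻¹)]
            _ = _ := by group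
        rw [e2]
        apply G₀.mul_mem h
        have := hconj (c * x)⁻¹ y⁻¹ (G₀.inv_mem h)
        rwa [inv_inv] at this
    have hsg : Crit sg := by
      refine ⟨fun _ => 0, sg, fun _ => by simp, fun _ _ _ => rfl, ?_⟩
      intro g u hu
      have : g * u ∈ G₀ ↔ g ∈ G₀ := G₀.mul_mem_cancel_right (hcomm hu)
      simp only [sg, this]
    -- the sum over `G₀`
    have hsum1 : ∀ w : G, ∑ b : G, (if b ∈ G₀ then chi c H (b * w) else 0) =
        Nat.card H * sg w := by
      intro w
      rcases hG w with hw | hw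
      · have e1 : ∀ b : G, (if b ∈ G₀ then chi c H (b * w) else 0) =
            (if b * w ∈ H then (1:ℚ) else 0) := by
          intro b
          by_cases hb : b ∈ G₀
          · rw [if_pos hb]
            have hbw : b * w ∈ G₀ := G₀.mul_mem hb hw
            have : c * (b * w) ∉ H := fun h => hexcl _ (hH h) hbw
            simp [chi, this]
          · rw [if_neg hb]
            have : b * w ∉ H := by
              intro h
              apply hb
              have := G₀.mul_mem (hH h) (G₀.inv_mem hw)
              rwa [mul_inv_cancel_right] at this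
            simp [this]
        rw [Finset.sum_congr rfl (fun b _ => e1 b)]
        rw [Fintype.sum_equiv (Equiv.mulRight w) _
          (fun z => if z ∈ H then (1:ℚ) else 0) (fun y => by simp)]
        rw [Finset.sum_boole]
        simp only [sg, hw, if_true, mul_one]
        rw [Nat.card_eq_fintype_card, Fintype.card_subtype]
      · have hw' : w ∉ G₀ := hexcl w hw
        have e1 : ∀ b : G, (if b ∈ G₀ then chi c H (b * w) else 0) =
            - (if c * (b * w) ∈ H then (1:ℚ) else 0) := by
          intro b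
          have e3 : c * (b * w) = b * (c * w) := by
            rw [← mul_assoc, hc b, mul_assoc]
          by_cases hb : b ∈ G₀
          · rw [if_pos hb]
            have hbw : b * w ∉ H := by
              intro h
              have h2 := hH h
              apply hw'
              have := G₀.mul_mem (G₀.inv_mem hb) h2
              rwa [inv_mul_cancel_left] at this
            simp [chi, hbw]
          · rw [if_neg hb]
            have : c * (b * w) ∉ H := by
              rw [e3]
              intro h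
              apply hb
              have := G₀.mul_mem (hH h) (G₀.inv_mem hw)
              rwa [mul_inv_cancel_right] at this
            simp [this]
        rw [Finset.sum_congr rfl (fun b _ => e1 b), Finset.sum_neg_distrib]
        rw [Fintype.sum_equiv ((Equiv.mulRight w).trans (Equiv.mulLeft c)) _
          (fun z => if z ∈ H then (1:ℚ) else 0) (fun y => by simp)]
        rw [Finset.sum_boole]
        simp only [sg, hw', if_false]
        rw [Nat.card_eq_fintype_card, Fintype.card_subtype]
        ring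
    have hsum2 : ∀ g : G, ∑ b : G, (if b ∈ G₀ then oo c H b g else 0) =
        Fintype.card G * Nat.card H * sg g := by
      intro g
      have e1 : ∀ b : G, (if b ∈ G₀ then oo c H b g else 0) =
          ∑ η : G, (if b ∈ G₀ then chi c H (b * (η⁻¹ * g * η)) else 0) := by
        intro b
        by_cases hb : b ∈ G₀
        · simp only [hb, if_true]; rfl
        · simp [hb]
      rw [Finset.sum_congr rfl (fun b _ => e1 b), Finset.sum_comm,
        Finset.sum_congr rfl (fun η _ => hsum1 _)]
      have e2 : ∀ η : G, sg (η⁻¹ * g * η) = sg g := by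
        intro η; simp only [sg, hconj']
      simp only [e2, Finset.sum_const, Finset.card_univ, nsmul_eq_mul]
      ring
    -- evaluate the sum by classes
    have hsum3 : ∀ g : G, ∑ b : G, (if b ∈ G₀ then oo c H b g else 0) =
        Nat.card H * oo c H 1 g + ((Nat.card G₀ : ℚ) - Nat.card H) * oo c H a g := by
      intro g
      have e1 : ∀ b : G, (if b ∈ G₀ then oo c H b g else 0) =
          (if b ∈ H then (1:ℚ) else 0) * oo c H 1 g +
          ((if b ∈ G₀ then (1:ℚ) else 0) - (if b ∈ H then 1 else 0)) * oo c H a g := by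
        intro b
        by_cases hb : b ∈ G₀
        · by_cases hbH : b ∈ H
          · have := oo_mem hc hbH (1 : G)
            rw [mul_one] at this
            simp [hb, hbH, this]
          · simp [hb, hbH, hab b hb hbH]
        · have hbH : b ∉ H := fun h => hb (hH h)
          simp [hb, hbH]
      rw [Finset.sum_congr rfl (fun b _ => e1 b), Finset.sum_add_distrib, ← Finset.sum_mul,
        ← Finset.sum_mul, Finset.sum_sub_distrib]
      have e2 : ∀ L : Subgroup G, ∑ b : G, (if b ∈ L then (1:ℚ) else 0) = Nat.card L := by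
        intro L
        rw [Finset.sum_boole, Nat.card_eq_fintype_card, Fintype.card_subtype]
      rw [e2, e2]
    have hlt : (Nat.card G₀ : ℚ) - Nat.card H ≠ 0 := by
      have h1 : Nat.card H ≤ Nat.card G₀ := Subgroup.card_le_of_le hH
      have h2 : Nat.card H ≠ Nat.card G₀ := by
        intro h
        have := Subgroup.eq_of_le_of_card_ge hH h.ge
        exact haH (this ▸ ha)
      have h3 : Nat.card H < Nat.card G₀ := lt_of_le_of_ne h1 h2
      have : (Nat.card H : ℚ) < Nat.card G₀ := by exact_mod_cast h3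
      intro h; linarith
    have e : oo c H a = (Fintype.card G * Nat.card H / ((Nat.card G₀ : ℚ) - Nat.card H)) • sg +
        (-(Nat.card H : ℚ) / ((Nat.card G₀ : ℚ) - Nat.card H)) • oo c H 1 := by
      funext g
      simp only [Pi.add_apply, Pi.smul_apply, smul_eq_mul]
      have h1 := hsum2 g
      rw [hsum3 g] at h1
      field_simp
      linear_combination h1
    rw [e]
    exact crit_add (crit_smul _ hsg) (crit_smul _ (crit_oo_one hc hc2))
  by_cases h1 : t ∈ H
  · exact crit_oo_of_mem hc hc2 (Or.inl h1)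
  by_cases h2 : c * t ∈ H
  · exact crit_oo_of_mem hc hc2 (Or.inr h2)
  rcases hG t with h | h
  · exact main t h h1
  · have := main (c * t) h h2
    rw [oo_c hc2] at this
    have e : oo c H t = (-1 : ℚ) • (- oo c H t) := by simp
    rw [e]
    exact crit_smul _ this

end Pool.Agent.W548.CZ
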