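import Pool.Agent.W548.CZ.Span

set_option autoImplicit false
set_option linter.unusedSectionVars false

namespace Pool.Agent.W548.CZ

open Finset
open scoped Classical commutatorElement

variable {G : Type*} [Group G] [Fintype G] [DecidableEq G]

lemma crit_const (r : ℚ) : Crit (fun _ : G => r) :=
  ⟨fun _ => r, fun _ => 0, fun _ => by simp, fun _ _ _ => rfl, fun _ _ _ => rfl⟩

lemma crit_add {f h : G → ℚ} (hf : Crit f) (hh : Crit h) : Crit (f + h) := by
  obtain ⟨a, b, h1, h2, h3⟩ := hf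
  obtain ⟨a', b', h1', h2', h3'⟩ := hh
  refine ⟨a + a', b + b', ?_, ?_, ?_⟩
  · intro g; simp only [Pi.add_apply]; rw [h1, h1']; ring
  · intro g y hgy; simp only [Pi.add_apply]; rw [h2 g y hgy, h2' g y hgy]
  · intro g u hu; simp only [Pi.add_apply]; rw [h3 g u hu, h3' g u hu]

lemma crit_smul (r : ℚ) {f : G → ℚ} (hf : Crit f) : Crit (r • f) := by
  obtain ⟨a, b, h1, h2, h3⟩ := hf
  refine ⟨r • a, r • b, ?_, ?_, ?_⟩
  · intro g; simp only [Pi.smul_apply, smul_eq_mul]; rw [h1]; ring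
  · intro g y hgy; simp only [Pi.smul_apply, smul_eq_mul]; rw [h2 g y hgy]
  · intro g u hu; simp only [Pi.smul_apply, smul_eq_mul]; rw [h3 g u hu]

/-- the space of functions satisfying the criterion -/
def critSub (G : Type*) [Group G] [Fintype G] [DecidableEq G] : Submodule ℚ (G → ℚ) where
  carrier := {f | Crit f}
  add_mem' := fun h1 h2 => crit_add h1 h2
  zero_mem' := crit_const 0
  smul_mem' := fun r _ h => crit_smul r h

lemma exists_odd {g y : G} (h : Subgroup.zpowers g = Subgroup.zpowers y) :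
    ∃ k : ℤ, Odd k ∧ g ^ k = y := by
  have h1 : y ∈ Subgroup.zpowers g := by rw [h]; exact Subgroup.mem_zpowers y
  have h2 : g ∈ Subgroup.zpowers y := by rw [← h]; exact Subgroup.mem_zpowers g
  obtain ⟨k, hk⟩ := Subgroup.mem_zpowers_iff.1 h1
  obtain ⟨l, hl⟩ := Subgroup.mem_zpowers_iff.1 h2
  rcases Int.even_or_odd k with he | ho
  · refine ⟨k + (k * l - 1), ?_, ?_⟩
    · have : Odd (k * l - 1) := by
        have : Even (k * l) := he.mul_right l
        exact this.sub_odd odd_one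
      exact he.add_odd this
    · rw [zpow_add, hk, zpow_sub, zpow_mul, hk, hl, zpow_one, mul_inv_cancel, mul_one]
  · exact ⟨k, ho, hk⟩

lemma c_zpow {c : G} (hc2 : c * c = 1) {k : ℤ} (hk : Odd k) : c ^ k = c := by
  obtain ⟨m, rfl⟩ := hk
  rw [zpow_add, zpow_mul]
  have : c ^ (2:ℤ) = 1 := by rw [zpow_ofNat, pow_two, hc2]
  rw [this, one_zpow, one_mul, zpow_one]

lemma c_mul_zpow {c : G} (hc : ∀ g, c * g = g * c) (hc2 : c * c = 1) {g y : G}
    (h : Subgroup.zpowers g = Subgroup.zpowers y) : ∃ k : ℤ, (c * g) ^ k = c * y := by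
  obtain ⟨k, hk, hy⟩ := exists_odd h
  refine ⟨k, ?_⟩
  rw [(show Commute c g from hc g).mul_zpow, c_zpow hc2 hk, hy]

lemma conj_mem_iff {H : Subgroup G} {g y : G} (h1 : ∃ k : ℤ, g ^ k = y) (h2 : ∃ k : ℤ, y ^ k = g)
    (x : G) : x⁻¹ * g * x ∈ H ↔ x⁻¹ * y * x ∈ H := by
  have key : ∀ (a b : G), (∃ k : ℤ, a ^ k = b) → x⁻¹ * a * x ∈ H → x⁻¹ * b * x ∈ H := by
    rintro a b ⟨k, rfl⟩ h
    have : x⁻¹ * a ^ k * x = (x⁻¹ * a * x) ^ k := by
      have := conj_zpow (i := k) (a := x⁻¹) (b := a)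
      rw [inv_inv] at this
      exact this.symm
    rw [this]
    exact H.zpow_mem h k
  exact ⟨key g y h1, key y g h2⟩

lemma crit_averaged {c : G} (hc : ∀ g, c * g = g * c) (hc2 : c * c = 1) {H : Subgroup G}
    (hcH : c ∉ H) : Crit (fun g => ∑ S ∈ cms c H, ∑ x ∈ S, a0 x S g) := by
  refine ⟨fun g => ∑ S ∈ cms c H, ∑ x ∈ S, a0 x S g, fun _ => 0, fun _ => by simp, ?_,
    fun _ _ _ => rfl⟩
  intro g y h
  simp only
  rw [averaged_eq hc hc2 hcH, averaged_eq hc hc2 hcH]
  have e1 : pH H g = pH H y := by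
    unfold pH
    apply Finset.sum_congr rfl
    intro x _
    have h1 : ∃ k : ℤ, g ^ k = y := by
      obtain ⟨k, _, hk⟩ := exists_odd h; exact ⟨k, hk⟩
    have h2 : ∃ k : ℤ, y ^ k = g := by
      obtain ⟨k, _, hk⟩ := exists_odd h.symm; exact ⟨k, hk⟩
    simp only [conj_mem_iff h1 h2 x]
  have e2 : pH H (c * g) = pH H (c * y) := by
    unfold pH
    apply Finset.sum_congr rfl
    intro x _
    simp only [conj_mem_iff (c_mul_zpow hc hc2 h) (c_mul_zpow hc hc2 h.symm) x]
  rw [e1, e2]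

lemma commutator_conj (g x : G) : ∃ u ∈ commutator G, x⁻¹ * g * x = g * u := by
  refine ⟨⁅g⁻¹, x⁻¹⁆, Subgroup.commutator_mem_commutator (Subgroup.mem_top _)
    (Subgroup.mem_top _), ?_⟩
  rw [commutatorElement_def]; group

lemma crit_abelian {c : G} {H : Subgroup G} (hH : commutator G ≤ H) {S : Finset G}
    (hS : IsCMType c H S) (x : G) : Crit (a0 x S) := by
  refine ⟨fun _ => 0, a0 x S, fun _ => by simp, fun _ _ _ => rfl, ?_⟩
  intro g u hu
  rw [a0_eq, a0_eq]
  congr 1
  apply Finset.sum_congr rfl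
  intro η _
  congr 2
  have e : η⁻¹ * (g * u) * η * x = (η⁻¹ * g * η * x) * (x⁻¹ * (η⁻¹ * u * η) * x) := by group
  rw [e]
  apply eps_right hS
  apply hH
  have hn : (commutator G).Normal := inferInstance
  have h1 : η⁻¹ * u * η ∈ commutator G := by
    have := hn.conj_mem u hu η⁻¹
    rwa [inv_inv] at this
  have := hn.conj_mem _ h1 x⁻¹
  rwa [inv_inv] at this

/-- The converse: a function outside of the criterion is not killed by some admissible
functional. -/
lemma exists_delta {c : G} (hc : ∀ g, c * g = g * c) (hc2 : c * c = 1) {f : G → ℚ}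
    (hf : ¬ Crit f) : ∃ δ : (G → ℚ) →ₗ[ℚ] ℝ, Known c δ ∧ δ f ≠ 0 := by
  have hf' : f ∉ critSub G := hf
  obtain ⟨φ, hφ, hle⟩ := Submodule.exists_le_ker_of_notMem hf'
  have hz : ∀ h : G → ℚ, Crit h → φ h = 0 := by
    intro h hh
    have : h ∈ critSub G := hh
    exact hle this
  refine ⟨(Algebra.linearMap ℚ ℝ).comp φ, ⟨?_, ?_, ?_⟩, ?_⟩
  · rw [LinearMap.comp_apply, hz _ (crit_const 1), map_zero]
  · intro H _ hH S hS x
    rw [LinearMap.comp_apply, hz _ (crit_abelian hH hS x), map_zero]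
  · intro H hcH
    have e : ∑ S ∈ univ.filter (fun S : Finset G => IsCMType c H S),
        ∑ x ∈ S, ((Algebra.linearMap ℚ ℝ).comp φ) (a0 x S) =
        ((Algebra.linearMap ℚ ℝ).comp φ) (fun g => ∑ S ∈ cms c H, ∑ x ∈ S, a0 x S g) := by
      have e2 : (fun g => ∑ S ∈ cms c H, ∑ x ∈ S, a0 x S g) =
          ∑ S ∈ cms c H, ∑ x ∈ S, a0 x S := by
        funext g; simp only [Finset.sum_apply]
      rw [e2, map_sum]
      apply Finset.sum_congr rfl
      intro S _
      rw [map_sum]
    rw [e, LinearMap.comp_apply, hz _ (crit_averaged hc hc2 hcH), map_zero]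
  · rw [LinearMap.comp_apply]
    intro h
    apply hφ
    have : ((φ f : ℚ) : ℝ) = 0 := by simpa using h
    exact_mod_cast this

lemma cl_conj {f : G → ℚ} (hcl : Cl f = f) (g z : G) : f (z⁻¹ * g * z) = f g := by
  have : Cl f (z⁻¹ * g * z) = Cl f g := by
    unfold Cl
    congr 1
    apply Fintype.sum_equiv (Equiv.mulLeft z)
    intro x
    simp only [Equiv.coe_mulLeft]
    congr 1
    group
  rwa [hcl] at this

/-- average over the cosets of the commutator subgroup -/
noncomputable def avg (f : G → ℚ) (g : G) : ℚ :=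
  (∑ w : G, if g⁻¹ * w ∈ commutator G then f w else 0) / Nat.card (commutator G)

lemma card_comm_ne : (Nat.card (commutator G) : ℚ) ≠ 0 := by
  have : 0 < Nat.card (commutator G) := Nat.card_pos
  exact_mod_cast this.ne'

lemma sum_coset (g : G) : ∑ w : G, (if g⁻¹ * w ∈ commutator G then (1:ℚ) else 0) =
    Nat.card (commutator G) := by
  rw [Fintype.sum_equiv (Equiv.mulLeft g⁻¹) _
    (fun z => if z ∈ commutator G then (1:ℚ) else 0) (fun y => by simp)]
  rw [Finset.sum_boole]
  rw [Nat.card_eq_fintype_card, Fintype.card_subtype]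

lemma avg_right (f : G → ℚ) (g u : G) (hu : u ∈ commutator G) : avg f (g * u) = avg f g := by
  unfold avg
  congr 1
  apply Finset.sum_congr rfl
  intro w _
  have : (g * u)⁻¹ * w = u⁻¹ * (g⁻¹ * w) := by group
  rw [this, Subgroup.mul_mem_cancel_left _ (Subgroup.inv_mem _ hu)]

lemma avg_conj (f : G → ℚ) (g x : G) : avg f (x⁻¹ * g * x) = avg f g := by
  obtain ⟨u, hu, h⟩ := commutator_conj g x
  rw [h, avg_right _ _ _ hu]

lemma avg_const {f : G → ℚ} {g : G} {r : ℚ} (h : ∀ u ∈ commutator G, f (g * u) = r) :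
    avg f g = r := by
  unfold avg
  rw [div_eq_iff card_comm_ne, ← sum_coset g, Finset.mul_sum]
  apply Finset.sum_congr rfl
  intro w _
  by_cases hw : g⁻¹ * w ∈ commutator G
  · rw [if_pos hw, if_pos hw, mul_one]
    have := h _ hw
    rwa [mul_inv_cancel_left] at this
  · rw [if_neg hw, if_neg hw, mul_zero]

lemma avg_inv {f : G → ℚ} (hinv : ∀ g, f g⁻¹ = f g) (g : G) : avg f g⁻¹ = avg f g := by
  unfold avg
  congr 1
  apply Fintype.sum_equiv (Equiv.inv G)
  intro w
  simp only [Equiv.inv_apply, hinv, inv_inv]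
  have hn : (commutator G).Normal := inferInstance
  have : g * w ∈ commutator G ↔ g⁻¹ * w⁻¹ ∈ commutator G := by
    constructor
    · intro h
      have h1 := Subgroup.inv_mem _ h
      have h2 := hn.conj_mem _ h1 g⁻¹
      have e : g⁻¹ * (g * w)⁻¹ * g⁻¹⁻¹ = g⁻¹ * w⁻¹ := by group
      rwa [e] at h2
    · intro h
      have h1 := Subgroup.inv_mem _ h
      have h2 := hn.conj_mem _ h1 g
      have e : g * (g⁻¹ * w⁻¹)⁻¹ * g⁻¹ = g * w := by group
      rwa [e] at h2
  simp only [this]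

lemma avg_c {c : G} {f : G → ℚ} {r : ℚ} (hodd : ∀ g, f (c * g) = r - f g)
    (hcG : c ∈ commutator G) (hc : ∀ g, c * g = g * c) (hc2 : c * c = 1) (g : G) :
    avg f g = r / 2 := by
  have h1 : avg f (g * c) = avg f g := avg_right _ _ _ hcG
  have h2 : avg f (g * c) = r - avg f g := by
    unfold avg
    rw [eq_sub_iff_add_eq, ← add_div, div_eq_iff card_comm_ne, ← sum_coset g, Finset.mul_sum]
    rw [Fintype.sum_equiv (Equiv.mulLeft c)
      (fun w => if (g * c)⁻¹ * w ∈ commutator G then f w else 0)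
      (fun w => if g⁻¹ * w ∈ commutator G then r - f w else 0)]
    · rw [← Finset.sum_add_distrib]
      apply Finset.sum_congr rfl
      intro w _
      split_ifs <;> ring
    · intro w
      simp only [Equiv.coe_mulLeft]
      have e1 : (g * c)⁻¹ * w = g⁻¹ * (c * w) := by
        rw [← hc g, mul_inv_rev]
        have : c⁻¹ = c := inv_eq_of_mul_eq_one_left hc2
        rw [this, mul_assoc]
      have e2 : r - f (c * w) = f w := by rw [hodd]; ring
      rw [e1, e2]
  rw [h1] at h2
  linarith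

/-- The families. -/
lemma crit_of_cond {c : G} (hc : ∀ g, c * g = g * c) (hc2 : c * c = 1) {f : G → ℚ}
    (hcl : Cl f = f) (r : ℚ) (hodd : ∀ g, f (c * g) = r - f g)
    (hcond : ∀ g : G, (∃ z, z⁻¹ * g * z = c * g) ∨
      (∀ u ∈ commutator G, ∃ z, z⁻¹ * g * z = g * u) ∨
      (∀ y, Subgroup.zpowers y = Subgroup.zpowers g → (∃ z, z⁻¹ * g * z = y) ∨
        ((∀ g, f g⁻¹ = f g) ∧ ∃ z, z⁻¹ * g * z = y⁻¹))) : Crit f := by
  refine ⟨fun g => f g - avg f g, avg f, fun g => by ring, ?_, fun g u hu => avg_right f g u hu⟩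
  have key : ∀ g : G, (f g - avg f g = 0) ∨
      (∀ y, Subgroup.zpowers y = Subgroup.zpowers g → f g - avg f g = f y - avg f y) := by
    intro g
    rcases hcond g with ⟨z, hz⟩ | h | h
    · left
      have hcG : c ∈ commutator G := by
        obtain ⟨u, hu, hu'⟩ := commutator_conj g z
        have : c = u := by
          have : g * c = g * u := by rw [← hu', hz, hc]
          exact mul_left_cancel this
        rw [this]; exact hu
      rw [avg_c hodd hcG hc hc2]
      have h1 : f (c * g) = f g := by rw [← hz, cl_conj hcl]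
      rw [hodd] at h1
      linarith
    · left
      have : avg f g = f g := by
        apply avg_const
        intro u hu
        obtain ⟨z, hz⟩ := h u hu
        rw [← hz, cl_conj hcl]
      rw [this, sub_self]
    · right
      intro y hy
      rcases h y hy with ⟨z, hz⟩ | ⟨hinv, z, hz⟩
      · rw [← hz, cl_conj hcl, avg_conj]
      · rw [← hinv y, ← avg_inv hinv y, ← hz, cl_conj hcl, avg_conj]
  intro g y h
  simp only
  rcases key g with h1 | h1
  · rcases key y with h2 | h2
    · rw [h1, h2]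
    · exact (h2 g h).symm
  · exact h1 y h.symm

lemma fal_Cl (S : Finset G) :
    Cl (fun g => ∑ x ∈ S, a0 x S g) = fun g => ∑ x ∈ S, a0 x S g := by
  funext g
  have : ∀ x, Cl (a0 x S) g = a0 x S g := fun x => congrFun (a0_Cl x S) g
  unfold Cl
  unfold Cl at this
  rw [Finset.sum_comm, Finset.sum_div]
  exact Finset.sum_congr rfl (fun x _ => this x)

lemma fal_c {c : G} (hc : ∀ g, c * g = g * c) {H : Subgroup G} {S : Finset G}
    (h : IsCMType c H S) (g : G) :
    ∑ x ∈ S, a0 x S (c * g) = (S.card : ℚ) - ∑ x ∈ S, a0 x S g := by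
  rw [Finset.sum_congr rfl (fun x _ => a0_c hc h x g), Finset.sum_sub_distrib]
  simp

lemma fal_inv (S : Finset G) (g : G) : ∑ x ∈ S, a0 x S g⁻¹ = ∑ x ∈ S, a0 x S g := by
  have key : ∀ g : G, ∑ x ∈ S, a0 x S g = (∑ η : G, ∑ x : G,
      (if x ∈ S then (1:ℚ) else 0) * (if η⁻¹ * g * η * x ∈ S then 1 else 0)) / Fintype.card G := by
    intro g
    have e : ∀ x ∈ S, a0 x S g = (∑ η : G, (if η⁻¹ * g * η * x ∈ S then (1:ℚ) else 0)) /
        Fintype.card G := by
      intro x _
      unfold a0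
      rw [Finset.card_filter]; push_cast; rfl
    rw [Finset.sum_congr rfl e, ← Finset.sum_div, Finset.sum_comm]
    congr 1
    apply Finset.sum_congr rfl
    intro η _
    rw [← Finset.sum_filter_add_sum_filter_not univ (fun x => x ∈ S) (fun x : G =>
      (if x ∈ S then (1:ℚ) else 0) * (if η⁻¹ * g * η * x ∈ S then 1 else 0))]
    have e1 : (univ.filter (fun x => x ∈ S)) = S := by ext; simp
    rw [e1]
    have e2 : ∑ x ∈ univ.filter (fun x => x ∉ S), (if x ∈ S then (1:ℚ) else 0) *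
        (if η⁻¹ * g * η * x ∈ S then 1 else 0) = 0 := by
      apply Finset.sum_eq_zero
      intro x hx
      simp only [Finset.mem_filter, Finset.mem_univ, true_and] at hx
      rw [if_neg hx, zero_mul]
    rw [e2, add_zero]
    apply Finset.sum_congr rfl
    intro x hx
    rw [if_pos hx, one_mul]
  rw [key, key]
  congr 1
  apply Finset.sum_congr rfl
  intro η _
  apply Fintype.sum_equiv (Equiv.mulLeft (η⁻¹ * g⁻¹ * η))
  intro x
  simp only [Equiv.coe_mulLeft]
  have e : η⁻¹ * g * η * (η⁻¹ * g⁻¹ * η * x) = x := by group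
  simp only [e]
  exact mul_comm _ _

end Pool.Agent.W548.CZ
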