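import Pool.Agent.W548.CZ.Basic

set_option autoImplicit false
set_option linter.unusedSectionVars false

namespace Pool.Agent.W548.CZ

open Finset
open scoped Classical commutatorElement

variable {G : Type*} [Group G] [Fintype G] [DecidableEq G]

/-- `θ_C(g) = #{x : ⟨x⁻¹ g x⟩ = C}` -/
noncomputable def th (C : Subgroup G) (g : G) : ℚ :=
  ∑ x : G, if Subgroup.zpowers (x⁻¹ * g * x) = C then 1 else 0

lemma pH_eq_sum (C : Subgroup G) (g : G) :
    pH C g = ∑ D ∈ univ.filter (fun D : Subgroup G => D ≤ C), th D g := by
  unfold pH th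
  rw [Finset.sum_comm]
  apply Finset.sum_congr rfl
  intro x _
  by_cases h : x⁻¹ * g * x ∈ C
  · rw [if_pos h, Finset.sum_eq_single (Subgroup.zpowers (x⁻¹ * g * x))]
    · simp
    · intro D _ hD
      rw [if_neg (fun h' => hD h'.symm)]
    · intro h'
      exfalso
      apply h'
      simp only [Finset.mem_filter, Finset.mem_univ, true_and]
      exact (Subgroup.zpowers_le).2 h
  · rw [if_neg h]
    symm
    apply Finset.sum_eq_zero
    intro D hD
    simp only [Finset.mem_filter, Finset.mem_univ, true_and] at hD
    rw [if_neg]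
    intro h'
    apply h
    apply hD
    rw [← h']
    exact Subgroup.mem_zpowers _

lemma th_eq (C : Subgroup G) (g : G) :
    th C g = pH C g - ∑ D ∈ univ.filter (fun D : Subgroup G => D < C), th D g := by
  rw [pH_eq_sum]
  have : univ.filter (fun D : Subgroup G => D ≤ C) =
      insert C (univ.filter (fun D : Subgroup G => D < C)) := by
    ext D
    simp only [Finset.mem_filter, Finset.mem_univ, true_and, Finset.mem_insert]
    constructor
    · intro h
      rcases eq_or_lt_of_le h with h | h
      · left; exact h
      · right; exact h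
    · rintro (h | h)
      · exact h.le
      · exact h.le
  rw [this, Finset.sum_insert]
  · ring
  · simp

lemma od_add (c : G) (f h : G → ℚ) : Od c (f + h) = Od c f + Od c h := by
  funext g; simp only [Od, Pi.add_apply]; ring

lemma od_sub (c : G) (f h : G → ℚ) : Od c (f - h) = Od c f - Od c h := by
  funext g; simp only [Od, Pi.sub_apply]; ring

lemma od_smul (c : G) (r : ℚ) (f : G → ℚ) : Od c (r • f) = r • Od c f := by
  funext g; simp only [Od, Pi.smul_apply, smul_eq_mul]; ring

lemma od_sum {ι : Type*} (s : Finset ι) (c : G) (F : ι → G → ℚ) :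
    Od c (∑ i ∈ s, F i) = ∑ i ∈ s, Od c (F i) := by
  induction s using Finset.induction_on with
  | empty => funext g; simp [Od]
  | insert a s ha ih => rw [Finset.sum_insert ha, Finset.sum_insert ha, od_add, ih]

/-- value of a power-invariant function on a cyclic subgroup -/
noncomputable def valOn (f : G → ℚ) (C : Subgroup G) : ℚ :=
  if h : ∃ y, Subgroup.zpowers y = C then f h.choose else 0

lemma valOn_zpowers {f : G → ℚ}
    (hf : ∀ g y : G, Subgroup.zpowers g = Subgroup.zpowers y → f g = f y) (g : G) :
    valOn f (Subgroup.zpowers g) = f g := by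
  unfold valOn
  have h : ∃ y, Subgroup.zpowers y = Subgroup.zpowers g := ⟨g, rfl⟩
  rw [dif_pos h]
  exact hf _ _ h.choose_spec

lemma cl_pow {f : G → ℚ}
    (hf : ∀ g y : G, Subgroup.zpowers g = Subgroup.zpowers y → f g = f y) :
    Cl f = ∑ C : Subgroup G, (valOn f C / Fintype.card G) • th C := by
  funext g
  rw [Finset.sum_apply]
  unfold Cl
  rw [div_eq_iff cardG_ne, Finset.sum_mul]
  have : ∀ C : Subgroup G, ((valOn f C / Fintype.card G) • th C) g * Fintype.card G =
      ∑ x : G, valOn f C * (if Subgroup.zpowers (x⁻¹ * g * x) = C then 1 else 0) := by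
    intro C
    simp only [Pi.smul_apply, smul_eq_mul, th]
    rw [← Finset.mul_sum]
    field_simp [cardG_ne (G := G)]
  rw [Finset.sum_congr rfl (fun C _ => this C), Finset.sum_comm]
  apply Finset.sum_congr rfl
  intro x _
  rw [Finset.sum_eq_single (Subgroup.zpowers (x⁻¹ * g * x))]
  · rw [if_pos rfl, mul_one, valOn_zpowers hf]
  · intro D _ hD
    rw [if_neg (fun h' => hD h'.symm), mul_zero]
  · intro h; exact absurd (Finset.mem_univ _) h

lemma cl_lin {f : G → ℚ} (hf : ∀ g : G, ∀ u ∈ commutator G, f (g * u) = f g) : Cl f = f := by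
  funext g
  unfold Cl
  have : ∀ x : G, f (x⁻¹ * g * x) = f g := by
    intro x
    have e : x⁻¹ * g * x = g * (g⁻¹ * x⁻¹ * g * x) := by group
    rw [e]
    apply hf
    have : g⁻¹ * x⁻¹ * g * x = ⁅g⁻¹, x⁻¹⁆ := by
      rw [commutatorElement_def]; group
    rw [this]
    exact Subgroup.commutator_mem_commutator (Subgroup.mem_top _) (Subgroup.mem_top _)
  rw [Finset.sum_congr rfl (fun x _ => this x)]
  simp only [Finset.sum_const, Finset.card_univ, nsmul_eq_mul]
  field_simp [cardG_ne (G := G)]

section V

variable {c : G} (hc : ∀ g, c * g = g * c) (hc2 : c * c = 1)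
variable {δ : (G → ℚ) →ₗ[ℚ] ℝ} (hδ : Known c δ)

include hc hc2 hδ

lemma delta_pH (C : Subgroup G) : δ (Od c (pH C)) = 0 := by
  by_cases hC : c ∈ C
  · have : Od c (pH C) = 0 := by
      funext g
      simp only [Od, Pi.zero_apply]
      have : pH C (c * g) = pH C g := by
        unfold pH
        apply Finset.sum_congr rfl
        intro x _
        have e : x⁻¹ * (c * g) * x = c * (x⁻¹ * g * x) := by
          calc x⁻¹ * (c * g) * x = (x⁻¹ * c) * g * x := by group
            _ = (c * x⁻¹) * g * x := by rw [hc]
            _ = _ := by group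
        rw [e, C.mul_mem_cancel_left hC]
      rw [this]; simp
    rw [this, map_zero]
  · have h := hδ.averaged C hC
    have e1 : ∑ S ∈ univ.filter (fun S : Finset G => IsCMType c C S), ∑ x ∈ S, δ (a0 x S) =
        δ (∑ S ∈ cms c C, ∑ x ∈ S, a0 x S) := by
      rw [map_sum]
      apply Finset.sum_congr rfl
      intro S _
      rw [map_sum]
    rw [e1] at h
    have e2 : (∑ S ∈ cms c C, ∑ x ∈ S, a0 x S) =
        (((cms c C).card : ℚ) / 4 * Fintype.card G) • (fun _ : G => (1:ℚ)) +
        (((cms c C).card : ℚ) / 2) • Od c (pH C) := by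
      funext g
      rw [Finset.sum_apply]
      simp only [Finset.sum_apply]
      rw [averaged_eq hc hc2 hC]
      simp only [Pi.add_apply, Pi.smul_apply, smul_eq_mul, Od]
      ring
    rw [e2, map_add, map_smul, map_smul, hδ.one, smul_zero, zero_add] at h
    have hne : ((cms c C).card : ℚ) / 2 ≠ 0 := by
      have := cms_card_ne hc hc2 hC
      positivity
    rcases smul_eq_zero.1 h with h | h
    · exact absurd h hne
    · exact h

lemma delta_th (C : Subgroup G) : δ (Od c (th C)) = 0 := by
  induction C using WellFoundedLT.induction with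
  | ind C ih =>
    have e : th C = pH C - ∑ D ∈ univ.filter (fun D : Subgroup G => D < C), th D := by
      funext g
      rw [Pi.sub_apply, Finset.sum_apply]
      exact th_eq C g
    rw [e, od_sub, od_sum, map_sub, map_sum, delta_pH hc hc2 hδ C, Finset.sum_eq_zero, sub_zero]
    intro D hD
    simp only [Finset.mem_filter, Finset.mem_univ, true_and] at hD
    exact ih D hD

lemma delta_pow {f : G → ℚ}
    (hf : ∀ g y : G, Subgroup.zpowers g = Subgroup.zpowers y → f g = f y) :
    δ (Od c (Cl f)) = 0 := by
  rw [cl_pow hf, od_sum, map_sum]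
  apply Finset.sum_eq_zero
  intro C _
  rw [od_smul, map_smul, delta_th hc hc2 hδ, smul_zero]

lemma delta_eps (hcG : c ∉ commutator G) {S : Finset G} (hS : IsCMType c (commutator G) S) :
    δ (eps S) = 0 := by
  have h := hδ.abelian (commutator G) hcG le_rfl S hS 1
  have e : eps S = (2:ℚ) • a0 1 S - (fun _ => 1) := by
    funext g
    simp only [Pi.sub_apply, Pi.smul_apply, smul_eq_mul]
    rw [a0_eq]
    have : ∀ η : G, (1 + eps S (η⁻¹ * g * η * 1)) / 2 = (1 + eps S g) / 2 := by
      intro η
      congr 2
      have e : η⁻¹ * g * η * 1 = g * (g⁻¹ * η⁻¹ * g * η) := by group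
      rw [e]
      apply eps_right hS
      have : g⁻¹ * η⁻¹ * g * η = ⁅g⁻¹, η⁻¹⁆ := by
        rw [commutatorElement_def]; group
      rw [this]
      exact Subgroup.commutator_mem_commutator (Subgroup.mem_top _) (Subgroup.mem_top _)
    rw [Finset.sum_congr rfl (fun x _ => this x)]
    simp only [Finset.sum_const, Finset.card_univ, nsmul_eq_mul]
    field_simp [cardG_ne (G := G)]
    ring
  rw [e, map_sub, map_smul, h, hδ.one, smul_zero, sub_zero]

lemma delta_lin {f : G → ℚ} (hf : ∀ g : G, ∀ u ∈ commutator G, f (g * u) = f g) :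
    δ (Od c f) = 0 := by
  by_cases hcG : c ∈ commutator G
  · have : Od c f = 0 := by
      funext g
      simp only [Od, Pi.zero_apply]
      rw [hc, hf g c hcG]; simp
    rw [this, map_zero]
  · obtain ⟨S, hS⟩ := exists_cm hc hc2 hcG
    set P : Subgroup G := commutator G with hP
    -- `Od f` as a combination of sign functions
    have hodd : ∀ g, Od c f (c * g) = - Od c f g := by
      intro g
      simp only [Od]
      rw [← mul_assoc, hc2, one_mul]; ring
    have hlin : ∀ g : G, ∀ u ∈ P, Od c f (g * u) = Od c f g := by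
      intro g u hu
      simp only [Od]
      rw [hf g u hu, ← mul_assoc, hf (c * g) u hu]
    have key : Od c f = ∑ y : G, (Od c f y * eps S y / (4 * (Nat.card P : ℚ))) •
        (eps S - eps (flip c P y S)) := by
      funext g
      rw [Finset.sum_apply]
      have e1 : ∀ y : G, ((Od c f y * eps S y / (4 * (Nat.card P : ℚ))) •
          (eps S - eps (flip c P y S))) g = (Od c f g) / (2 * (Nat.card P : ℚ)) *
          ((if y⁻¹ * g ∈ P then 1 else 0) + (if y⁻¹ * (c * g) ∈ P then 1 else 0)) := by
        intro y
        simp only [Pi.smul_apply, Pi.sub_apply, smul_eq_mul]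
        by_cases h1 : y⁻¹ * g ∈ P
        · have h2 : ¬ (y⁻¹ * (c * g) ∈ P) := by
            intro h2
            apply hcG
            have : c = (y⁻¹ * (c * g)) * (y⁻¹ * g)⁻¹ := by
              calc c = c * (y⁻¹ * g) * (y⁻¹ * g)⁻¹ := by group
                _ = (c * y⁻¹) * g * (y⁻¹ * g)⁻¹ := by group
                _ = (y⁻¹ * c) * g * (y⁻¹ * g)⁻¹ := by rw [hc]
                _ = _ := by group
            rw [this]
            exact P.mul_mem h2 (P.inv_mem h1)
          rw [eps_flip_of (Or.inl h1)]
          have e2 : g = y * (y⁻¹ * g) := by group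
          have e3 : eps S g = eps S y := by rw [e2]; exact eps_right hS _ _ h1
          have e4 : Od c f g = Od c f y := by rw [e2]; exact hlin _ _ h1
          rw [e3, e4]
          simp only [h1, h2, if_true, if_false]
          have := eps_sq S y
          have hne : (Nat.card P : ℚ) ≠ 0 := by
            have : 0 < Nat.card P := Nat.card_pos
            exact_mod_cast this.ne'
          field_simp
          linear_combination (4 * Od c f y) * this
        · by_cases h2 : y⁻¹ * (c * g) ∈ P
          · rw [eps_flip_of (Or.inr h2)]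
            have e2 : c * g = y * (y⁻¹ * (c * g)) := by group
            have e3 : - eps S g = eps S y := by
              rw [← eps_c hS, e2]; exact eps_right hS _ _ h2
            have e4 : - Od c f g = Od c f y := by
              rw [← hodd, e2]; exact hlin _ _ h2
            rw [← e3, ← e4]
            simp only [h1, h2, if_true, if_false]
            have := eps_sq S g
            have hne : (Nat.card P : ℚ) ≠ 0 := by
              have : 0 < Nat.card P := Nat.card_pos
              exact_mod_cast this.ne'
            field_simp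
            linear_combination (4 * Od c f g) * this
          · rw [eps_flip_of_not (by push Not; exact ⟨h1, h2⟩)]
            simp [h1, h2]
      rw [Finset.sum_congr rfl (fun y _ => e1 y), ← Finset.mul_sum, Finset.sum_add_distrib]
      have e5 : ∀ w : G, ∑ y : G, (if y⁻¹ * w ∈ P then (1:ℚ) else 0) = Nat.card P := by
        intro w
        rw [Fintype.sum_equiv ((Equiv.inv G).trans (Equiv.mulRight w)) _
          (fun z => if z ∈ P then (1:ℚ) else 0) (fun y => by simp)]
        rw [Finset.sum_boole]
        rw [Nat.card_eq_fintype_card, Fintype.card_subtype]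
      rw [e5, e5]
      have hne : (Nat.card P : ℚ) ≠ 0 := by
        have : 0 < Nat.card P := Nat.card_pos
        exact_mod_cast this.ne'
      field_simp
      ring
    rw [key, map_sum]
    apply Finset.sum_eq_zero
    intro y _
    rw [map_smul, map_sub, delta_eps hc hc2 hδ hcG hS,
      delta_eps hc hc2 hδ hcG (flip_cm hc2 hS), sub_zero, smul_zero]

/-- Functions satisfying the criterion are killed. -/
lemma delta_crit {f : G → ℚ} (hcl : Cl f = f) (r : ℚ) (hodd : ∀ g, f (c * g) = r - f g)
    (hf : Crit f) : δ f = 0 := by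
  obtain ⟨f₁, f₂, h, h₁, h₂⟩ := hf
  have e : f = (r / 2) • (fun _ : G => (1:ℚ)) + Od c f := by
    funext g
    simp only [Pi.add_apply, Pi.smul_apply, smul_eq_mul, Od]
    rw [hodd]; ring
  have e2 : Od c f = Od c (Cl f₁) + Od c f₂ := by
    rw [← od_add]
    congr 1
    rw [← hcl]
    have : f = f₁ + f₂ := funext h
    rw [this]
    funext g
    have h3 : f₂ = Cl f₂ := (cl_lin h₂).symm
    rw [Pi.add_apply, congrFun h3 g]
    simp only [Cl, Pi.add_apply]
    rw [Finset.sum_add_distrib, add_div]
  rw [e, map_add, map_smul, hδ.one, smul_zero, zero_add, e2, map_add, delta_pow hc hc2 hδ h₁,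
    delta_lin hc hc2 hδ h₂, add_zero]

end V

end Pool.Agent.W548.CZ
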